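import Pool.Agent.Results.MP_e66f84_ag.RandomOrbits
import Pool.Agent.U569.APL.Lin

/-!
# MP_e66f84_ag: the section conjecture for superelliptic curves with coefficients formed from arbitrary sets

Let `k` be a field finitely generated over `ℚ`, the fraction field of a domain `R` of characteristic zero that is finitely
generated as a ring. The curves are those of the starting results `SuperellipticFamilies` and `RandomOrbits`:
`c_0 y ^ a = c_1 + c_2 x + … + c_{d+1} x ^ d` with `c_i ∈ R`, `d ≥ 3`, `a ≥ 1` not coprime to `d`. `Exceptional R k d` is
the set of the vectors `(c_0, …, c_{d+1})` which do not have the property: `c_0 ≠ 0`, the polynomial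
`f = c_1 + c_2 x + … + c_{d+1} x ^ d` is irreducible of degree `d` over `k`, and for all `a ≥ 1` not coprime to `d` the curve
`c_0 y ^ a = f(x)` over `k` has no point over `k`, and the fundamental groups of its open subcurves and of all smooth curves
over `k` that dominate it have no sections. In particular these curves satisfy the section conjecture.

Here `c_i = ∑_j x_{i j} e_j`, where `e_1, …, e_m` are elements of `R`, not all zero, and the `x_{i j}` are different
coordinates of a vector in `ℤ ^ ι`.

Let a sequence (`j = 0, 1, 2, …`) of families of vectors in `ℤ ^ ι`, `|ι| = R`, be given. The vectors of the `j`-th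
family are `c₀ + y`, `c₀` an arbitrary integral vector (depending on `j`, of any size) and `y` one of the following vectors
(represented by `0, …, q - 1`):

* `y` in any family of vectors modulo some `q` (depending on `j`), whose nontrivial Fourier coefficients are at most
  `1 / (Z (42 + 3 log q) ^ R)`, where `Z → ∞`, `Z ≤ q`;
* `β(x, z) + u(x) + w(z)` modulo a prime `P → ∞`, where `β : k ^ m × k ^ n → k ^ R` is bilinear, the nontrivial
  combinations of its coordinates have rank at least `ρ`, `x` and `z` are in ARBITRARY sets `E` and `F` with
  `|E| |F| ≥ P ^ (m + n - ρ + δ)`, `u` and `w` are arbitrary functions (for `δ > 0` fixed);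
* the same for `β(x, z) = x z`, `x` and `z` in ARBITRARY subsets of the field of `P ^ R` elements,
  `|E| |F| ≥ P ^ (R + δ)`;
* polynomials in several variables of degree at most `P ^ (δ / 4)`, all nontrivial combinations of which have a monomial
  with at least two variables, plus arbitrary functions of the single variables, on products of ARBITRARY sets of at
  least `P ^ (1 / 2 + δ)` residues;
* polynomials in one variable of degree at most `P ^ (δ / 4)`, no nontrivial combination of which is constant, on any
  subgroup of the multiplicative group modulo `P` with at least `P ^ (1 / 2 + δ)` elements.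

**Theorem.** There are exceptions `E j`, `|E j| = o(size)`, such that for ALL `d ≥ 3`, ALL `m`, ALL `e_1, …, e_m ∈ R`, not
all zero, and ALL choices of `(d + 2) m` different coordinates `x_{i j}`, for large `j` and all the vectors of the `j`-th
family outside of `E j` the vector `(c_0, …, c_{d+1})` is not exceptional.

New: the families of vectors, and one set of exceptions for all degrees and all `e`. The exceptional sets are pronull by the
starting library (`N697.RO`, `N92.TH`); few members of the families are in such a set by the theorem of the starting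
library `N384.VF` on vectors of residues; the estimates of the Fourier coefficients on arbitrary sets are in `U569/APL`.
-/

set_option autoImplicit false

namespace Pool.Agent.Results.MP_e66f84_ag.ArbitrarySets

open Filter
open Pool.Agent.N24.RW (ProNull)
open Pool.Agent.Results.MP_e66f84_ag.SuperellipticFamilies (Exceptional)
open Pool.Agent.Results.MP_e66f84_ag.RandomOrbits (not_exceptional)
open Pool.Agent.U569.APL

universe v w

/-- The vector `(c_0, …, c_{d+1})`, `c_i = ∑_j x_{f (i, j)} e_j`. -/
def vec {R : Type} [CommRing R] {ι : Type} {m d : ℕ} (e : Fin m → R) (f : Fin (d + 2) × Fin m → ι) (x : ι → ℤ) :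
    Fin (d + 2) → R :=
  fun i => ∑ j, (x (f (i, j)) : R) * e j

/-- a finitely generated ring is countable -/
theorem countable_ring (R : Type) [CommRing R] [Algebra.FiniteType ℤ R] : Countable R := by
  obtain ⟨n, f, hf⟩ := Algebra.FiniteType.iff_quotient_mvPolynomial''.1 (inferInstance : Algebra.FiniteType ℤ R)
  have : Countable (MvPolynomial (Fin n) ℤ) := by
    rw [← Cardinal.mk_le_aleph0_iff]
    refine (MvPolynomial.cardinalMk_le_max).trans ?_
    simp only [max_le_iff]
    exact ⟨⟨Cardinal.mk_le_aleph0, Cardinal.mk_le_aleph0⟩, le_rfl⟩
  exact hf.countable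

/-- **The section conjecture for superelliptic curves with coefficients formed from arbitrary sets.** -/
theorem result (R : Type) [CommRing R] [IsDomain R] [CharZero R] [Algebra.FiniteType ℤ R]
    (k : Type) [Field k] [Algebra R k] [IsFractionRing R k] (ι : Type) [Fintype ι] :
    (∀ (τ : ℕ → Type) (s : ∀ j, Finset (τ j)) (v : ∀ j, τ j → ι → ℤ), FlatFamilies s v →
      ∃ E : ∀ j, Finset (τ j), Small s E ∧
        ∀ (m d : ℕ) (e : Fin m → R), e ≠ 0 → 3 ≤ d → ∀ f : Fin (d + 2) × Fin m → ι, Function.Injective f →
          Outside s E v fun x => vec e f x ∉ Exceptional.{v, w} R k d) ∧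
    Examples ι := by
  classical
  refine ⟨fun τ s v hs => ?_, examples _⟩
  have hR := countable_ring R
  obtain ⟨E, hE, h⟩ := flat_diag hs
    (fun x : {x : Σ m : ℕ, Σ d : ℕ, (Fin m → R) × (Fin (d + 2) × Fin m → ι) //
        x.2.2.1 ≠ 0 ∧ 3 ≤ x.2.1 ∧ Function.Injective x.2.2.2} =>
      {c : ι → ℤ | (fun z => c (x.1.2.2.2 z)) ∈ {y : Fin (x.1.2.1 + 2) × Fin x.1.1 → ℤ |
        ¬ Pool.Agent.TH377.Sup.Good.{v, w} k (Pool.Agent.N92.TH.comb x.1.2.2.1 y)}})
    (by
      rintro ⟨⟨m, d, e, f⟩, he, hd, hf⟩
      obtain ⟨j₀, hj₀⟩ : ∃ j, e j ≠ 0 := by
        by_contra hcon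
        push Not at hcon
        exact he (funext hcon)
      have h1 := Pool.Agent.N697.RO.good_pronull.{v, w} (R := R) (k := k) e j₀ hj₀ d hd
      exact (Pool.Agent.N24.RW.clo (Fin (d + 2) × Fin m)).2.2.2.2 ι f hf _ h1)
  refine ⟨E, hE, fun m d e he hd f hf => ?_⟩
  filter_upwards [h ⟨⟨m, d, e, f⟩, he, hd, hf⟩] with j hj i hi hi2 hex
  have h2 := hj i hi hi2
  refine h2 ?_
  intro hg
  exact not_exceptional.{v, w} hg hex

end Pool.Agent.Results.MP_e66f84_ag.ArbitrarySets
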