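import Pool.Agent.Results.MP_e66f84_ag.RandomOrbits
import Pool.Agent.U125.NO.Seq

/-!
# The section conjecture for superelliptic curves whose coefficients are read off from normal numbers

Let `k` be a field finitely generated over `ℚ`, the fraction field of a domain `R` of characteristic
zero that is finitely generated as a ring, and let `e_1, …, e_m` be elements of `R`, not all zero (for
instance `m = 1` and `e_1 = 1`, or an integral basis of a number field `k`). Let `D ≥ 3`, and let
`x(0), x(1), …` be a normal orbit (`NormalOrbit`) of integral vectors with `(D + 2) m` coordinates,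

`c_i(n) = x(n)_{i,1} e_1 + … + x(n)_{i,m} e_m`   (`0 ≤ i ≤ D + 1`).

**Theorem.** Outside a set of times `n` of density zero, for all `d` with `3 ≤ d ≤ D`: the polynomial
`f = c_1(n) + c_2(n) x + … + c_{d+1}(n) x ^ d` is irreducible of degree `d` over `k`, and for all `a ≥ 1` not coprime
to `d` the curve `c_0(n) y ^ a = f(x)` over `k` has no point over `k`, and the fundamental groups of its open
subcurves and of all smooth curves over `k` that dominate it have no sections. In particular these curves
satisfy the section conjecture.

The definitions (`NoPoint`, `NoSection`, `Exceptional`) are those of the starting result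
`Pool.Agent.Results.MP_e66f84_ag.SuperellipticFamilies`. The starting result `RandomOrbits` has the orbits
under ALMOST ALL words in generators of a thin group.

A normal orbit is the orbit of an integral vector under a finite family of integral affine maps along ANY
normal sequence of indices, where the family is wide: for all `q` prime to some `q₀` the maps are bijective
modulo `q`, and the vector can be moved to at least the proportion `ε > 0`, not depending on `q`, of all
vectors modulo `q`.

Examples: (1) the vectors `(⌊g ^ n ξ_i⌋)_i` for ANY vector `ξ` of real numbers which is normal to the base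
`g ≥ 2`. For `k = ℚ` we read off the coefficients `c_0, …, c_{d+1}` from the first `n` digits of the numbers
`ξ_0, …, ξ_{d+1}`: so the curves converge to the fixed real curve `ξ_0 y ^ a = ξ_1 + … + ξ_{d+1} x ^ d`, and
for 100% of the `n` the `n`-th approximation satisfies the section conjecture; (2) the orbit of any vector
`v ≠ 0` along ANY normal word in matrices which generate the special linear group modulo all `q` prime to
some `q₀` (generators of a thin group); (3) vectors of integers whose digits are chosen from a restricted
set of vectors.

Proof. The exceptional vectors form a pronull set (`Pool.Agent.N697.RO.good_pronull`, from the local analysis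
of the starting files), and normal orbits visit a pronull set only at times of density zero: modulo `q` they
are orbits along a normal sequence in a finite transitive system of permutations, and these are
equidistributed (engine `Pool.Agent.U125.NO`).
-/

set_option autoImplicit false

namespace Pool.Agent.Results.MP_e66f84_ag.NormalSequences

open Filter Topology
open Pool.Agent.U125.NO (NormalOrbit Examples examples)
open Pool.Agent.N24.RW (ProNull)
open Pool.Agent.Results.MP_e66f84_ag.SuperellipticFamilies (Exceptional)
open Pool.Agent.Results.MP_e66f84_ag.RandomOrbits (coeffs not_exceptional)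
open Pool.Agent.TH377.Sup (Good)
open Pool.Agent.N92.TH (comb)
open Pool.Agent.N697.RO (cut cut_inj pronull_biUnion pronull_empty good_pronull)

universe v w

/-- the coordinate vectors which are exceptional for some `d ≤ D` are a pronull set -/
theorem pro {R k : Type} [CommRing R] [IsDomain R] [CharZero R] [Algebra.FiniteType ℤ R]
    [Field k] [Algebra R k] [IsFractionRing R k] {m : ℕ} (e : Fin m → R) (j₀ : Fin m) (he : e j₀ ≠ 0)
    (D : ℕ) : ProNull {y : Fin (D + 2) × Fin m → ℤ | ∃ (d : ℕ) (h : d ≤ D), 3 ≤ d ∧
      coeffs e y d h ∈ Exceptional.{v, w} R k d} := by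
  have h1 := pronull_biUnion Pool.Agent.N24.RW.clo (ι := Fin (D + 2) × Fin m)
    (Finset.univ : Finset (Fin (D + 1)))
    (fun d => {y : Fin (D + 2) × Fin m → ℤ | 3 ≤ (d : ℕ) ∧
      (fun z : Fin ((d : ℕ) + 2) × Fin m => y (cut (Nat.le_of_lt_succ d.2) z)) ∈
        {x : Fin ((d : ℕ) + 2) × Fin m → ℤ | ¬ Good.{v, w} k (comb e x)}}) ?_
  · refine (Pool.Agent.N24.RW.clo _).1 _ _ ?_ h1
    rintro y ⟨d, h, h3, hy⟩
    exact ⟨⟨d, Nat.lt_succ_of_le h⟩, Finset.mem_univ _, h3, fun hg => not_exceptional.{v, w} hg hy⟩
  · intro d _
    by_cases h3 : 3 ≤ (d : ℕ)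
    · refine (Pool.Agent.N24.RW.clo _).1 _ _ ?_
        ((Pool.Agent.N24.RW.clo (Fin ((d : ℕ) + 2) × Fin m)).2.2.2.2 (Fin (D + 2) × Fin m)
          (cut (Nat.le_of_lt_succ d.2)) (cut_inj _) _ (good_pronull.{v, w} (k := k) e j₀ he d h3))
      rintro y ⟨-, hy⟩
      exact hy
    · refine (Pool.Agent.N24.RW.clo _).1 _ _ ?_ pronull_empty
      rintro y ⟨h, -⟩
      exact absurd h h3

/-- **The section conjecture for superelliptic curves along normal orbits.** -/
theorem result (R : Type) [CommRing R] [IsDomain R] [CharZero R] [Algebra.FiniteType ℤ R]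
    (k : Type) [Field k] [Algebra R k] [IsFractionRing R k] (m : ℕ) (e : Fin m → R) (he : e ≠ 0)
    (D : ℕ) :
    (∀ x : ℕ → Fin (D + 2) × Fin m → ℤ, NormalOrbit x →
      Tendsto (fun N : ℕ => (({n : ℕ | n < N ∧ ∃ (d : ℕ) (h : d ≤ D), 3 ≤ d ∧
        coeffs e (x n) d h ∈ Exceptional.{v, w} R k d}.ncard : ℕ) : ℝ) / (N : ℝ)) atTop (𝓝 0)) ∧
    Examples (Fin (D + 2) × Fin m) := by
  obtain ⟨j₀, hj₀⟩ : ∃ j, e j ≠ 0 := by
    by_contra hcon
    push Not at hcon
    exact he (funext hcon)
  have hpro := pro.{v, w} (k := k) e j₀ hj₀ D
  refine ⟨fun x hx => ?_, examples _⟩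
  have h := hx.avoids (fun y => ∃ (d : ℕ) (h : d ≤ D), 3 ≤ d ∧
    coeffs e y d h ∈ Exceptional.{v, w} R k d) hpro
  exact h

end Pool.Agent.Results.MP_e66f84_ag.NormalSequences
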