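import Pool.Agent.U218.UX.Dens
import Pool.Agent.U218.UX.Der

/-!
# Twists without sections over all function fields with points over infinite extensions

Let `k` be a field finitely generated over `ℚ`, that is, the fraction field of a domain `R` of
characteristic zero that is finitely generated as a ring.  Let `m ≥ 1`, and let `E/k` be a Galois
extension, finite or infinite, all whose automorphisms satisfy `σ^m = 1`.  The largest such extension is
`k(m)`, the fixed field of all `σ^m`, `σ ∈ G_k`; for instance `k(2)` is obtained by adjoining the square
roots of all elements of `k`.  We consider the fields `k' ⊇ k` that embed over `k` in a finitely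
generated extension of `E` which is contained in the field `E((T))` of Laurent series, for such an
extension `E`.  Examples are the subfields `L` of `k(m)`, the fields of rational functions in finitely
many variables over them, and the function fields `k'` of the varieties over `L` with a smooth point over
`k(m)`; these fields `k'` may have any transcendence degree over `k`, and the algebraic closure of `k`
in `k'` may be an infinite extension of `k`.

Let `f ∈ k[x]` be a separable polynomial of degree at least 3 such that `σ^m` fixes no root of `f`, for
some `σ ∈ G_k`.  This is so, for instance, if `f` is irreducible and its degree is a power of a prime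
number that does not divide `m`.

**Theorem.**  For all `a ∈ R` outside a set of density zero the following holds for ALL these fields
`k'` at the same time.  Let `n` be a number such that `n` and the degree of `f` have a common prime
divisor `ℓ` that does not divide `m`.  Then the curve `a yⁿ = f(x)` has no point over `k'`, and its
fundamental group has no section over `k'`, also when any set of closed points of the curve is removed.
So these curves, and all smooth curves over `k'` that dominate one of them, satisfy the section
conjecture over `k'`.  Moreover, already the geometrically pro-`ℓ` fundamental group of the curve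
`a y^ℓ = f(x)` over `k'` has no section.

Here the fields `k'` are assumed to be transcendental over `ℚ`; for number fields `k` and algebraic
extensions `k'` this is `MP_2f3286_ag.MaximalExponentExtensions`.  For `m = 1` and `k' = k` the theorem
is `SuperellipticTwists`.  It does not follow from this case for a larger field `k'` that is finitely
generated, because `R` has density zero in every larger finitely generated ring; and the union of
infinitely many sets of density zero need not have density zero.

The fundamental group is described through valuations.  Let `U` be a smooth geometrically connected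
curve over `k` with function field `F`, let `Ω` be an algebraic closure of `F`, and let `F_U` be the
maximal extension of `F` inside `Ω` which is unramified over the closed points of `U`, that is, over
their local rings, which are valuation rings of `F`.  Then `π₁(U) = Gal(F_U/F)`, and the map
`π₁(U) → G_k` is the restriction of automorphisms to the algebraic closure of `k` in `Ω`.

Proof.  (1) By Hilbert's irreducibility theorem there is a point of a model of `k` over a number field
`L` such that the specialisation of `f` has the same property for the powers of an element of `G_L`.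
There are many primes `v` of `L` such that the specialised polynomial is separable modulo `v` and
without a root in the extension of degree `m` of the residue field, and `k` embeds in `L_v` near the
point.  This gives a discrete valuation of `k` with finite residue field.  (2) If the residue
characteristic does not divide `m`, then the ramification indices of the finite extensions of `k` inside
`E` divide `m`, because tame inertia groups are cyclic, and the residue fields are inside the extension
of degree `m`.  Hence `E` has a discrete valuation with finite residue field inside the extension of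
degree `m` above the one of `k`.  (3) The finitely generated extensions of `E` inside `E((T))` embed over
`E` in the completion of `E` (by Newton's lemma and because there are many algebraically independent
elements).  So `k'` has a discrete valuation of the same kind.  (4) If the value of `a` in `k` is prime
to `ℓ`, then so is the value of `a` in `k'`, as `ℓ` does not divide `m`, and the local theorem for the
twists `a y^ℓ = f(x)` over discrete valuation rings with finite residue fields applies to `k'`.
-/

open Polynomial

namespace Pool.Agent.Results.MP_e66f84_ag.TwistsOverLargeFunctionFields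

section definitions

variable (ℓ : ℕ) (k F Ω : Type) [Field k] [Field F] [Field Ω] [Algebra k F] [Algebra F Ω]
  [Algebra k Ω]

/-- The inertia group of the valuation ring `W` of `Ω`, as a subgroup of `Gal(Ω/F)`: the
automorphisms of `Ω` over `F` that map `W` onto itself and act as the identity on its residue
field. -/
noncomputable def inertia (W : ValuationSubring Ω) : Subgroup (Ω ≃ₐ[F] Ω) :=
  (W.inertiaSubgroup F).map (W.decompositionSubgroup F).subtype

/-- `F_U`, for a set `U` of valuation rings of `F`: the elements of `Ω` fixed by the inertia groups
of all valuation rings `W` of `Ω` with `W ∩ F ∈ U`.  If `Ω` is an algebraic closure of a field `F`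
of characteristic zero, this is the maximal extension of `F` in `Ω` unramified over `U`. -/
noncomputable def unramified (U : Set (ValuationSubring F)) : IntermediateField F Ω :=
  ⨅ W : {W : ValuationSubring Ω // W.comap (algebraMap F Ω) ∈ U},
    IntermediateField.fixedField (inertia F Ω W.1)

/-- `k̄ F`, the compositum of `F` and of the algebraic closure of `k` in `Ω`. -/
noncomputable def geomField : IntermediateField F Ω :=
  IntermediateField.adjoin F (algebraicClosure k Ω : Set Ω)

/-- The algebraic extension `L` of `K` in `Ω` is unramified at all valuation rings of `Ω` that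
contain `k`: every nonzero element of `L` has the same valuation as an element of `K`.  (If `K` is
a function field of one variable over the algebraic closure of `k` and `k` has characteristic zero,
then this says that `L/K` is unramified over all points of the smooth projective curve.) -/
def Unramified {k K Ω : Type} [Field k] [Field K] [Field Ω] [Algebra k Ω] [Algebra K Ω]
    (L : IntermediateField K Ω) : Prop :=
  ∀ W : ValuationSubring Ω, (∀ c : k, algebraMap k Ω c ∈ W) → ∀ z ∈ L, z ≠ 0 →
    ∃ t : K, t ≠ 0 ∧ z / algebraMap K Ω t ∈ W ∧ (z / algebraMap K Ω t)⁻¹ ∈ W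

/-- `L/K` is a finite Galois extension whose degree is a power of `ℓ`. -/
def FiniteProEll (ℓ : ℕ) {K Ω : Type} [Field K] [Field Ω] [Algebra K Ω]
    (L : IntermediateField K Ω) : Prop :=
  FiniteDimensional K L ∧ IsGalois K L ∧ ∃ m : ℕ, Module.finrank K L = ℓ ^ m

/-- The maximal unramified pro-`ℓ` extension of `K` in `Ω`: the compositum of the finite Galois
extensions of `K` whose degree is a power of `ℓ` and which are unramified. -/
noncomputable def maxProEll (ℓ : ℕ) (k K Ω : Type) [Field k] [Field K] [Field Ω] [Algebra k Ω]
    [Algebra K Ω] : IntermediateField K Ω :=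
  ⨆ L : {L : IntermediateField K Ω // FiniteProEll ℓ L ∧ Unramified (k := k) L}, L.1

/-- `M`, the maximal unramified pro-`ℓ` extension of `k̄ F` in `Ω`, as an extension of `F`. -/
noncomputable def proEllField : IntermediateField F Ω :=
  (maxProEll ℓ k (geomField k F Ω) Ω).restrictScalars F

/-- The map `τ : M → M` acts as `σ : K → K` on the elements that the fields `K` and `M` have in
common when they are regarded as subfields of `Ω` through `i` and `j`. -/
def ActsAs {K M Ω : Type} [Field K] [Field M] [Field Ω] (i : K →+* Ω) (j : M →+* Ω) (σ : K → K)
    (τ : M → M) : Prop :=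
  ∀ c z, j z = i c → j (τ z) = i (σ c)

/-- Let `k ⊆ K ⊆ Ω` and `F ⊆ N ⊆ Ω` be fields.  A splitting of `Gal(N/F) → Gal(K/k)`: a continuous
homomorphism `s` from `Gal(K/k)` to `Gal(N/F)` such that `s(σ)` acts as `σ` on the elements of
`K ∩ N`. -/
structure Splitting (K N : Type) [Field K] [Field N] [Algebra k K] [Algebra F N] [Algebra K Ω]
    [Algebra N Ω] where
  /-- the homomorphism `Gal(K/k) → Gal(N/F)` -/
  toHom : (K ≃ₐ[k] K) →* (N ≃ₐ[F] N)
  cont : Continuous toHom
  compat : ∀ σ : K ≃ₐ[k] K, ActsAs (algebraMap K Ω) (algebraMap N Ω) σ (toHom σ)

/-- There are no sections of `Gal(N/F) → G_k`, where `G_k = Gal(k̄/k)` and `k̄` is the algebraic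
closure of `k` in `Ω`.  For `N = F_U` these are the sections of `π₁(U) → G_k`. -/
def NoSplitting (N : IntermediateField F Ω) : Prop :=
  IsEmpty (Splitting k F Ω (algebraicClosure k Ω) N)

end definitions

section curves

variable {k : Type} [Field k]

/-- The smooth projective curve with the affine equation `a yⁿ = f(x)` has no point over `k`:
neither in the affine part nor at infinity. -/
def NoPoint (n : ℕ) (a : k) (f : k[X]) : Prop :=
  (¬ ∃ x y : k, a * y ^ n = f.eval x) ∧
    ¬ ∃ r : k, a * r ^ Nat.gcd n f.natDegree = f.leadingCoeff

/-- Let `F` be any field over `k` that contains a point `(x, y)` of the curve `a yⁿ = f(x)`, for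
instance the function field of the curve, and let `Ω` be an algebraic closure of `F`.  Then for
every set `U` of valuation rings of `F` over `k` there is no section of `π₁(U) → G_k`.  If `F` is the
function field of the curve, such `U` are given by the smooth projective curve and by all its open
subcurves. -/
def NoSection (n : ℕ) (a : k) (f : k[X]) : Prop :=
  ∀ (F Ω : Type) [Field F] [Field Ω] [Algebra k F] [Algebra F Ω] [Algebra k Ω]
    [IsScalarTower k F Ω] [IsAlgClosure F Ω] (x y : F) (U : Set (ValuationSubring F)),
    algebraMap k F a * y ^ n = aeval x f → (∀ O ∈ U, ∀ c : k, algebraMap k F c ∈ O) →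
      NoSplitting k F Ω (unramified F Ω U)

/-- Let `F = k(x, y)` be the function field of the curve `a y^ℓ = f(x)`, let `Ω` be an algebraic
closure of `F`, and let `M` be the maximal unramified pro-`ℓ` extension of `k̄ F`.  For all
extensions `N ⊇ M` of `F` in `Ω`, in particular for `N = M`, there is no section of
`Gal(N/F) → G_k`. -/
def NoProEllSection (ℓ : ℕ) (a : k) (f : k[X]) : Prop :=
  ∀ (F Ω : Type) [Field F] [Field Ω] [Algebra k F] [Algebra F Ω] [Algebra k Ω]
    [IsScalarTower k F Ω] [IsAlgClosure F Ω] (x y : F), Transcendental k x →
    algebraMap k F a * y ^ ℓ = aeval x f →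
    IntermediateField.adjoin k {x, y} = (⊤ : IntermediateField k F) →
    ∀ N : IntermediateField F Ω, proEllField ℓ k F Ω ≤ N → NoSplitting k F Ω N

/-- For some element `σ` of the Galois group of `k`, the power `σ ^ m` fixes no root of `f`. -/
def HasPowerDerangement (m : ℕ) (f : k[X]) : Prop :=
  ∃ σ : AlgebraicClosure k ≃ₐ[k] AlgebraicClosure k,
    ∀ θ : AlgebraicClosure k, aeval θ f = 0 → (σ ^ m) θ ≠ θ

end curves

/-- The field `k'` over `k` embeds over `k` in a finitely generated extension of `E` which is contained
in the field of Laurent series `E((T))`, for some Galois extension `E` of `k`, finite or infinite, all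
whose automorphisms satisfy `σ^m = 1`. -/
def InFamily (m : ℕ) (k k' : Type) [Field k] [Field k'] [Algebra k k'] : Prop :=
  ∃ (E : Type) (_ : Field E) (_ : Algebra k E), IsGalois k E ∧ (∀ σ : E ≃ₐ[k] E, σ ^ m = 1) ∧
    ∃ (S : Finset (LaurentSeries E)) (φ : k' →+* LaurentSeries E),
      (∀ x, φ x ∈ IntermediateField.adjoin E (S : Set (LaurentSeries E))) ∧
      ∀ x, φ (algebraMap k k' x) = algebraMap E (LaurentSeries E) (algebraMap k E x)

/-- The elements `a` of `R` which do not have the following property: for all fields `k'` of the family
that are transcendental over `ℚ`, for all `n ≥ 1` which have a common prime divisor with the degree of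
`f` that does not divide `m`, the curve `a yⁿ = f(x)` over `k'` has neither points nor sections, and for
all prime numbers `ℓ` which divide the degree of `f` and not `m` the geometrically pro-`ℓ` fundamental
group of the curve `a y^ℓ = f(x)` over `k'` has no section. -/
def Exceptional (m : ℕ) (R : Type) [CommRing R] {k : Type} [Field k] [Algebra R k] (f : k[X]) :
    Set R :=
  {a | ¬ ∀ (k' : Type) [Field k'] [Algebra k k'], InFamily m k k' →
    (∃ t : k', Transcendental ℤ t) →
    ∀ ℓ : ℕ, ℓ.Prime → ℓ ∣ f.natDegree → ¬ ℓ ∣ m →
      (∀ n : ℕ, 0 < n → ℓ ∣ n →
        NoPoint n (algebraMap k k' (algebraMap R k a)) (f.map (algebraMap k k')) ∧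
        NoSection n (algebraMap k k' (algebraMap R k a)) (f.map (algebraMap k k'))) ∧
      NoProEllSection ℓ (algebraMap k k' (algebraMap R k a)) (f.map (algebraMap k k'))}

/-- Density zero: for every `ε > 0` there is an ideal `I` of `R` of finite index such that `E` lies
in at most `ε #(R/I)` residue classes modulo `I`. -/
def DensityZero {R : Type} [CommRing R] (E : Set R) : Prop :=
  ∀ ε : ℝ, 0 < ε → ∃ I : Ideal R, Finite (R ⧸ I) ∧
    (Set.ncard ((Ideal.Quotient.mk I) '' E) : ℝ) ≤ ε * Nat.card (R ⧸ I)

lemma iSup_congr_prop {α : Type} [CompleteLattice α] {P Q : α → Prop} (h : ∀ L, P L ↔ Q L) :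
    (⨆ L : {L // P L}, L.1) = ⨆ L : {L // Q L}, L.1 := by
  have h1 : P = Q := funext fun L => propext (h L)
  subst h1
  rfl

lemma proEll_eq (ℓ : ℕ) (k F Ω : Type) [Field k] [Field F] [Field Ω] [Algebra k F] [Algebra F Ω]
    [Algebra k Ω] : proEllField ℓ k F Ω = Pool.Agent.Y157.PS.geomPro ℓ k F Ω := by
  unfold proEllField Pool.Agent.Y157.PS.geomPro maxProEll Pool.Agent.Y157.PS.maxPro
  congr 1
  refine iSup_congr_prop fun L => ?_
  constructor
  · rintro ⟨⟨h1, h2, h3⟩, h4⟩
    refine ⟨⟨h1, h2, h3⟩, fun W hW z hz hz0 => ?_⟩
    obtain ⟨t, ht, h5, h6⟩ := h4 W hW z hz hz0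
    exact ⟨t, ht, div_ne_zero hz0 ((_root_.map_ne_zero _).2 ht), h5, h6⟩
  · rintro ⟨⟨h1, h2, h3⟩, h4⟩
    refine ⟨⟨h1, h2, h3⟩, fun W hW z hz hz0 => ?_⟩
    obtain ⟨t, ht, -, h5, h6⟩ := h4 W hW z hz hz0
    exact ⟨t, ht, h5, h6⟩

lemma of_fine {k : Type} [Field k] (l : ℕ) (a : k) (f : k[X])
    (h : Pool.Agent.Y157.PS.FineP l a f) (n : ℕ) (hn : l ∣ n) (hd : l ∣ f.natDegree) :
    NoPoint n a f ∧ NoSection n a f := by
  obtain ⟨-, h1, h2, h3⟩ := h
  obtain ⟨n', rfl⟩ := hn
  refine ⟨⟨?_, ?_⟩, ?_⟩
  · rintro ⟨x, y, hxy⟩
    apply h2 x (y ^ n')
    rw [← hxy, ← pow_mul, mul_comm n' l]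
  · rintro ⟨r, hr⟩
    obtain ⟨e, he⟩ := Nat.dvd_gcd (Dvd.intro n' rfl : l ∣ l * n') hd
    apply h3 (r ^ e)
    rw [← hr, ← pow_mul, mul_comm e l, he]
  · intro F Ω _ _ _ _ _ _ _ x y U hxy hU
    have hcl : IsAlgClosed Ω := IsAlgClosure.isAlgClosed F
    have halg : Algebra.IsAlgebraic F Ω := IsAlgClosure.isAlgebraic
    have h4 := h1 F Ω U hU x (y ^ n') (by rw [← hxy, ← pow_mul, mul_comm n' l])
    exact ⟨fun s => h4.false ⟨s.toHom, s.cont, s.compat⟩⟩

/-- Let `R` be a domain of characteristic zero that is finitely generated as a ring, with fraction
field `k`; so `k` is any field finitely generated over `ℚ`.  Let `f` be a separable polynomial over `k`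
of degree at least 3 such that `σ^m` fixes no root of `f` for some `σ ∈ G_k`; for instance, `f` can be
irreducible of degree `p^r ≥ 3` for a prime number `p` that does not divide `m`.  Then for all `a ∈ R`
outside a set of density zero the following holds for all fields `k'` transcendental over `ℚ` which
embed over `k` in a finitely generated extension of `E` inside `E((T))`, for some Galois extension `E` of
`k`, finite or infinite, all whose automorphisms satisfy `σ^m = 1`: if `ℓ` is a prime divisor of the
degree of `f` that does not divide `m`, and `n` is a multiple of `ℓ`, then the smooth projective curve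
with the affine equation `a yⁿ = f(x)` has no point over `k'`, and the fundamental groups of its open
subcurves over `k'` and of all smooth curves over `k'` that dominate it have no sections; and the
geometrically pro-`ℓ` fundamental group of the curve `a y^ℓ = f(x)` over `k'` has no section. -/
theorem result (m : ℕ) (R : Type) [CommRing R] [IsDomain R] [CharZero R] [Algebra.FiniteType ℤ R]
    (k : Type) [Field k] [Algebra R k] [IsFractionRing R k] (f : k[X]) (hf : f.Separable)
    (h3 : 3 ≤ f.natDegree)
    (h : HasPowerDerangement m f ∨
      (Irreducible f ∧ ∃ p r : ℕ, p.Prime ∧ f.natDegree = p ^ r ∧ ¬ p ∣ m)) :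
    DensityZero (Exceptional m R f) := by
  have hcz : CharZero k := charZero_of_injective_algebraMap (IsFractionRing.injective R k)
  have hσ : HasPowerDerangement m f := by
    rcases h with h | ⟨hirr, p, r, hp, hdeg, hpm⟩
    · exact h
    · exact Pool.Agent.U218.UX.exists_pow_derangement f hirr p r m hp hdeg (by omega) hpm
  intro ε hε
  obtain ⟨I, hI, hIE⟩ := Pool.Agent.U218.UX.density_fg (R := R) m f hf h3 hσ ε hε
  refine ⟨I, hI, le_trans ?_ hIE⟩
  have hsub : (Exceptional m R f : Set R) ⊆
      {a : R | ¬ Pool.Agent.U218.UX.FineU m (algebraMap R k a) f} := by
    intro a ha hfine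
    apply ha
    intro k' _ _ hk' _ ℓ hℓ hℓd hℓm
    have hfin := hfine k' hk' ℓ hℓ hℓd hℓm
    refine ⟨fun n hn hℓn => ?_, ?_⟩
    · exact of_fine ℓ _ _ hfin n hℓn (by rw [natDegree_map]; exact hℓd)
    · intro F Ω _ _ _ _ _ _ _ x y hx hxy hF N hN
      have hcl : IsAlgClosed Ω := IsAlgClosure.isAlgClosed F
      have halg : Algebra.IsAlgebraic F Ω := IsAlgClosure.isAlgebraic
      rw [proEll_eq] at hN
      exact ⟨fun s => hfin.1 F Ω x y hx hxy hF N hN s.toHom s.cont s.compat⟩
  exact_mod_cast Set.ncard_le_ncard (Set.image_mono hsub) (Set.toFinite _)

end Pool.Agent.Results.MP_e66f84_ag.TwistsOverLargeFunctionFields
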